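import Pool.Agent.helper70.BND.SpecH

set_option autoImplicit false

open scoped Topology
open Finset

namespace Pool.Agent.BND.EX

/-- the sum over the word of a band of the basis -/
theorem BDN_sum (hWDC : WDC_stmt) (A : LD) (z : ℕ → ℤ) (j : ℕ) (b : Bool) :
    ((A.l.W (A.gb j) b).map z).sum =
      ∑ v ∈ range A.n, ((if b then (A.c j v).toNat else (-(A.c j v)).toNat : ℕ) : ℤ) * z v := by
  have h1 : A.l.W (A.gb j) b = wd A.n fun v => if b then (A.c j v).toNat else (-(A.c j v)).toNat := by
    change Wd A.n A.c (A.n + A.n * A.n + j) b = _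
    unfold Wd
    rw [if_neg (by omega), if_neg (by omega), Nat.add_sub_cancel_left]
  rw [h1, (hWDC A.n _).2.2 ℤ z]
  refine Finset.sum_congr rfl fun v _ => ?_
  rw [nsmul_eq_mul]

/-- the condition of the band `c j` -/
theorem BDN_gb (hWDC : WDC_stmt) (A : LD) (z : ℕ → ℤ) (j : ℕ) :
    ((A.l.W (A.gb j) false).map z).sum = ((A.l.W (A.gb j) true).map z).sum ↔
      ∑ v ∈ range A.n, A.c j v * z v = 0 := by
  rw [BDN_sum hWDC, BDN_sum hWDC]
  have h1 : ∑ v ∈ range A.n, A.c j v * z v =
      (∑ v ∈ range A.n, ((if true then (A.c j v).toNat else (-(A.c j v)).toNat : ℕ) : ℤ) * z v) -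
      ∑ v ∈ range A.n, ((if false then (A.c j v).toNat else (-(A.c j v)).toNat : ℕ) : ℤ) * z v := by
    rw [← Finset.sum_sub_distrib]
    refine Finset.sum_congr rfl fun v _ => ?_
    rw [← sub_mul]
    congr 1
    simp only [if_true, if_false, Bool.false_eq_true]
    omega
  rw [h1]
  simp only [Bool.false_eq_true]
  constructor
  · intro h
    rw [sub_eq_zero]
    exact h.symm
  · intro h
    rw [sub_eq_zero] at h
    exact h.symm

theorem BDN (hWDC : WDC_stmt) (hMKL : MKL_stmt) : BDN_stmt := by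
  intro H _ H' A th hL hG z
  rw [hL.mem z]
  constructor
  · intro h j hj
    exact (BDN_gb hWDC A z j).1 (h (A.gb j) ((hMKL A hG).2.2.2.2.2.2 j hj).1)
  · intro h e he
    rcases lt_or_ge e A.n with h1 | h1
    · have h2 : ∀ b, A.l.W e b = [e] := by
        intro b
        change Wd A.n A.c e b = _
        unfold Wd
        rw [if_pos h1]
      rw [h2, h2]
    · rcases lt_or_ge e (A.n + A.n * A.n) with h3 | h3
      · obtain ⟨a, b, ha, hb, rfl⟩ := (hMKL A hG).2.2.2.2.1 e h1 h3
        have h4 := (hMKL A hG).2.2.2.1 a b ha hb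
        rw [h4.2.2.2.2.1, h4.2.2.2.2.2]
        simp [add_comm]
      · have h5 : e = A.gb (e - (A.n + A.n * A.n)) := by
          unfold LD.gb
          omega
        rw [h5]
        refine (BDN_gb hWDC A z _).2 (h _ ?_)
        have h6 : e < A.n + A.n * A.n + A.k := he
        omega

end Pool.Agent.BND.EX
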